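import Mathlib
import Pool.Agent.Y192.OG.StA

/-!
# Job OG-A4: coprimality of a polynomial and its derivative along `t`
-/

set_option autoImplicit false

namespace Pool.Agent.Y833.OG

open MvPolynomial Pool.Agent.Y192.OG

section DP

variable {R : Type} [CommRing R] [Algebra ℂ R] (D : Derivation ℂ R R) {b : ℕ} (t : Fin b → Rˣ)

/-- logarithmic derivative of a monomial -/
noncomputable def ud (β : Fin b →₀ ℕ) : R :=
  ∑ j, (β j : R) * (((t j)⁻¹ : Rˣ) : R) * D (t j : R)

theorem ud_add (β γ : Fin b →₀ ℕ) : ud D t (β + γ) = ud D t β + ud D t γ := by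
  simp only [ud, ← Finset.sum_add_distrib, Finsupp.add_apply, Nat.cast_add]
  refine Finset.sum_congr rfl fun j _ => ?_
  ring

theorem ud_zero : ud D t 0 = 0 := by simp [ud]

theorem coeff_DP (P : MvPolynomial (Fin b) R) (β : Fin b →₀ ℕ) :
    coeff β (DP D t P) = D (coeff β P) + coeff β P * ud D t β := by
  classical
  rw [DP, coeff_sum]
  simp only [coeff_monomial]
  by_cases h : β ∈ P.support
  · rw [Finset.sum_eq_single β]
    · rw [if_pos rfl]; rfl
    · intro γ _ hγ
      rw [if_neg hγ]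
    · intro h'
      exact absurd h h'
  · have h0 : coeff β P = 0 := by simpa using h
    rw [h0, map_zero, zero_mul, add_zero]
    refine Finset.sum_eq_zero fun γ hγ => ?_
    rw [if_neg]
    rintro rfl
    exact h hγ

theorem DP_mul (P Q : MvPolynomial (Fin b) R) :
    DP D t (P * Q) = DP D t P * Q + P * DP D t Q := by
  classical
  ext γ
  rw [coeff_DP, coeff_add, coeff_mul, coeff_mul, coeff_mul, map_sum, Finset.sum_mul,
    ← Finset.sum_add_distrib, ← Finset.sum_add_distrib]
  refine Finset.sum_congr rfl fun x hx => ?_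
  have hx' : x.1 + x.2 = γ := Finset.HasAntidiagonal.mem_antidiagonal.mp hx
  rw [coeff_DP, coeff_DP, ← hx', ud_add, Derivation.leibniz]
  simp only [smul_eq_mul]
  ring

theorem DP_C (c : R) : DP D t (C c) = C (D c) := by
  classical
  ext γ
  rw [coeff_DP, coeff_C, coeff_C]
  split_ifs with h
  · rw [← h, ud_zero, mul_zero, add_zero]
  · rw [map_zero, zero_mul, add_zero]

theorem DP_support (P : MvPolynomial (Fin b) R) : (DP D t P).support ⊆ P.support := by
  intro β hβ
  rw [mem_support_iff, coeff_DP] at hβ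
  rw [mem_support_iff]
  intro h
  rw [h] at hβ
  simp at hβ

/-- derivative of a monomial in `t` -/
theorem D_monom (β : Fin b →₀ ℕ) :
    D (∏ i, (t i : R) ^ β i) = (∏ i, (t i : R) ^ β i) * ud D t β := by
  classical
  have key : ∀ s : Finset (Fin b), D (∏ i ∈ s, (t i : R) ^ β i) =
      (∏ i ∈ s, (t i : R) ^ β i) * ∑ j ∈ s, (β j : R) * (((t j)⁻¹ : Rˣ) : R) * D (t j : R) := by
    intro s
    induction s using Finset.induction_on with
    | empty => simp
    | insert j s hj ih =>
      rw [Finset.prod_insert hj, Finset.sum_insert hj, Derivation.leibniz, ih,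
        Derivation.leibniz_pow]
      simp only [smul_eq_mul, nsmul_eq_mul]
      rcases Nat.eq_zero_or_pos (β j) with h0 | h0
      · rw [h0]
        simp
      · obtain ⟨n, hn⟩ : ∃ n, β j = n + 1 := ⟨β j - 1, by omega⟩
        rw [hn, Nat.add_sub_cancel, pow_succ]
        have hu : (t j : R) * (((t j)⁻¹ : Rˣ) : R) = 1 := Units.mul_inv _
        linear_combination (-(↑(n + 1) : R) * (t j : R) ^ n * D (t j : R) *
          ∏ i ∈ s, (t i : R) ^ β i) * hu
  exact key Finset.univ

end DP

/-- clearing denominators -/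
theorem clear {R : Type} [CommRing R] [IsDomain R] {b : ℕ}
    (p : MvPolynomial (Fin b) (FractionRing R)) :
    ∃ r : R, r ≠ 0 ∧ ∃ p0 : MvPolynomial (Fin b) R,
      map (algebraMap R (FractionRing R)) p0 = C (algebraMap R (FractionRing R) r) * p := by
  induction p using MvPolynomial.induction_on with
  | C a =>
    obtain ⟨x, y, hy, rfl⟩ := IsFractionRing.div_surjective (A := R) a
    have hy0 : y ≠ 0 := nonZeroDivisors.ne_zero hy
    refine ⟨y, hy0, C x, ?_⟩
    rw [map_C, ← C_mul]
    congr 1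
    have : algebraMap R (FractionRing R) y ≠ 0 := by
      intro h
      rw [← map_zero (algebraMap R (FractionRing R))] at h
      exact hy0 (IsFractionRing.injective R (FractionRing R) h)
    field_simp
  | mul_X p i h =>
    obtain ⟨r, hr, p0, hp0⟩ := h
    refine ⟨r, hr, p0 * X i, ?_⟩
    rw [map_mul, hp0, map_X, mul_assoc]
  | add p q h1 h2 =>
    obtain ⟨r, hr, p0, hp0⟩ := h1
    obtain ⟨s, hs, q0, hq0⟩ := h2
    refine ⟨r * s, mul_ne_zero hr hs, C s * p0 + C r * q0, ?_⟩
    rw [map_add, map_mul, map_mul, map_C, map_C, hp0, hq0, map_mul, C_mul]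
    ring

/-- A polynomial in one variable with two nonzero coefficients has a nonzero root. -/
theorem exists_root (h : Polynomial ℂ) (m n : ℕ) (hmn : m ≠ n) (hm : h.coeff m ≠ 0)
    (hn : h.coeff n ≠ 0) : ∃ z : ℂ, z ≠ 0 ∧ h.eval z = 0 := by
  by_contra hcon
  push Not at hcon
  have h0 : h ≠ 0 := by
    rintro rfl
    simp at hm
  have hsp : h.Splits := IsAlgClosed.splits h
  have hprod := hsp.eq_prod_roots
  have hroots : h.roots = Multiset.replicate (Multiset.card h.roots) 0 := by
    rw [Multiset.eq_replicate]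
    refine ⟨rfl, fun z hz => ?_⟩
    by_contra hz0
    exact hcon z hz0 ((Polynomial.mem_roots h0).mp hz)
  rw [hroots, Multiset.map_replicate, Multiset.prod_replicate, Polynomial.C_0, sub_zero] at hprod
  rw [hprod, Polynomial.coeff_C_mul, Polynomial.coeff_X_pow] at hm hn
  split_ifs at hm hn with h1 h2
  · exact hmn (h1.trans h2.symm)
  · simp at hn
  · simp at hm
  · simp at hm

theorem t_cop : St_cop := by
  intro R _ _ _ D hD b t P hsq hX hev
  classical
  set φ := algebraMap R (FractionRing R) with hφ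
  have hinj : Function.Injective φ := IsFractionRing.injective R _
  have hφ0 : ∀ r : R, r ≠ 0 → φ r ≠ 0 := by
    intro r hr h
    rw [← map_zero φ] at h
    exact hr (hinj h)
  have hminj := map_injective (σ := Fin b) φ hinj
  have hP'0 : map φ P ≠ 0 := hsq.ne_zero
  refine WfDvdMonoid.isRelPrime_of_no_irreducible_factors (fun h => hP'0 h.1) ?_
  intro π hπ hπP hπDP
  obtain ⟨r, hr, π0, hπ0⟩ := clear π
  have hunit : ∀ r : R, r ≠ 0 → IsUnit (C (φ r) : MvPolynomial (Fin b) (FractionRing R)) :=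
    fun r hr => (isUnit_iff_ne_zero.mpr (hφ0 r hr)).map C
  set π' := map φ π0 with hπ'
  have hassoc : Associated π π' := by
    obtain ⟨u, hu⟩ := hunit r hr
    refine ⟨u, ?_⟩
    rw [hu, hπ0, mul_comm]
  have hirr : Irreducible π' := hassoc.irreducible hπ
  have hprime : Prime π' := hirr.prime
  obtain ⟨ρ, hρ⟩ : π' ∣ map φ P := hassoc.symm.dvd.trans hπP
  have hπDP' : π' ∣ map φ (DP D t P) := hassoc.symm.dvd.trans hπDP
  obtain ⟨c, hc, ρ0, hρ0⟩ := clear ρ
  have hcP : C c * P = π0 * ρ0 := by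
    apply hminj
    rw [map_mul, map_mul, map_C, hρ0, hρ]
    ring
  have hDP := congrArg (DP D t) hcP
  rw [DP_mul, DP_mul, DP_C] at hDP
  have h1 : π' ∣ map φ (DP D t π0) * map φ ρ0 := by
    have h := congrArg (map φ) hDP
    simp only [map_add, map_mul, map_C] at h
    have e : map φ (DP D t π0) * map φ ρ0 = C (φ (D c)) * map φ P +
        C (φ c) * map φ (DP D t P) - π' * map φ (DP D t ρ0) := by
      linear_combination -h
    rw [e]
    exact dvd_sub (dvd_add (dvd_mul_of_dvd_right ⟨ρ, hρ⟩ _) (dvd_mul_of_dvd_right hπDP' _))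
      (dvd_mul_right _ _)
  have h2 : ¬ π' ∣ map φ ρ0 := by
    intro h
    rw [hρ0] at h
    have h3 := (hprime.dvd_or_dvd h).resolve_left
      (fun h' => hirr.not_isUnit (isUnit_of_dvd_unit h' (hunit c hc)))
    exact hirr.not_isUnit (hsq π' (by rw [hρ]; exact mul_dvd_mul_left _ h3))
  obtain ⟨κ, hκ⟩ := (hprime.dvd_or_dvd h1).resolve_right h2
  have hκC : ∃ k, κ = C k := by
    by_cases h0 : κ = 0
    · exact ⟨0, by rw [h0, C_0]⟩
    · have h3 : (map φ (DP D t π0)).totalDegree ≤ π'.totalDegree := by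
        rw [hπ']
        simp only [totalDegree, support_map_of_injective _ hinj]
        exact Finset.sup_mono (DP_support D t π0)
      rw [hκ, totalDegree_mul_of_isDomain hirr.ne_zero h0] at h3
      have : κ.totalDegree = 0 := by omega
      exact ⟨_, totalDegree_eq_zero_iff_eq_C.mp this⟩
  obtain ⟨k, rfl⟩ := hκC
  obtain ⟨c3, c2, hc2, hk⟩ := IsFractionRing.div_surjective (A := R) k
  have hc20 : c2 ≠ 0 := nonZeroDivisors.ne_zero hc2
  have h4 : ∀ β, c2 * (D (coeff β π0) + coeff β π0 * ud D t β) = c3 * coeff β π0 := by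
    intro β
    apply hinj
    have h5 := congrArg (coeff β) hκ
    rw [coeff_map, coeff_DP, mul_comm π', coeff_C_mul, hπ', coeff_map] at h5
    have h6 := hφ0 c2 hc20
    rw [map_mul, h5, map_mul, ← hk, ← hφ]
    field_simp
  set w : (Fin b →₀ ℕ) → R := fun β => coeff β π0 * ∏ i, (t i : R) ^ β i with hw
  have hDw : ∀ β, c2 * D (w β) = c3 * w β := by
    intro β
    simp only [hw]
    rw [Derivation.leibniz, D_monom]
    simp only [smul_eq_mul]
    linear_combination (∏ i, (t i : R) ^ β i) * h4 β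
  have hratio : ∀ β γ, w β * D (w γ) = w γ * D (w β) := by
    intro β γ
    apply mul_left_cancel₀ hc20
    linear_combination w β * hDw γ - w γ * hDw β
  have hw0 : ∀ β ∈ π0.support, w β ≠ 0 := by
    intro β hβ
    refine mul_ne_zero (mem_support_iff.mp hβ) ?_
    exact Finset.prod_ne_zero_iff.mpr fun i _ => pow_ne_zero _ (Units.ne_zero _)
  have hπ00 : π0 ≠ 0 := by
    intro h
    apply hirr.ne_zero
    rw [hπ', h, map_zero]
  obtain ⟨γ, hγ⟩ : ∃ γ, γ ∈ π0.support := by
    obtain ⟨γ, hγ⟩ := MvPolynomial.ne_zero_iff.mp hπ00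
    exact ⟨γ, mem_support_iff.mpr hγ⟩
  obtain ⟨δ, hδ, hδγ⟩ : ∃ δ ∈ π0.support, δ ≠ γ := by
    by_contra hcon
    push Not at hcon
    have hmon : π0 = monomial γ (coeff γ π0) := by
      ext δ
      rw [coeff_monomial]
      split_ifs with h
      · rw [h]
      · by_contra hne
        exact h (hcon δ (mem_support_iff.mpr hne)).symm
    have hmon' : π' = monomial γ (φ (coeff γ π0)) := by
      rw [hπ', ← map_monomial, ← hmon]
    by_cases hγ0 : ∃ i, γ i ≠ 0
    · obtain ⟨i, hi⟩ := hγ0
      refine hX i (dvd_trans ?_ ⟨ρ, hρ⟩)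
      rw [hmon']
      exact X_dvd_monomial.mpr (Or.inr hi)
    · push Not at hγ0
      have : γ = 0 := Finsupp.ext hγ0
      apply hirr.not_isUnit
      rw [hmon', this]
      exact hunit _ (by rw [← this]; exact mem_support_iff.mp hγ)
  -- the exponents
  obtain ⟨M, hM⟩ : ∃ M : ℕ, ∀ β ∈ π0.support, ∀ i, β i < M := by
    refine ⟨∑ i, π0.degreeOf i + 1, fun β hβ i => ?_⟩
    have h5 := monomial_le_degreeOf i hβ
    have h6 : π0.degreeOf i ≤ ∑ i, π0.degreeOf i :=
      Finset.single_le_sum (f := fun i => π0.degreeOf i) (fun _ _ => Nat.zero_le _)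
        (Finset.mem_univ i)
    omega
  set ψ : (Fin b →₀ ℕ) → ℕ := fun β => ∑ i, β i * M ^ (i : ℕ) with hψ
  have hψinj : ∀ β ∈ π0.support, ∀ β' ∈ π0.support, ψ β = ψ β' → β = β' := by
    intro β hβ β' hβ' h
    have h5 : finFunctionFinEquiv (fun i => (⟨β i, hM β hβ i⟩ : Fin M)) =
        finFunctionFinEquiv (fun i => (⟨β' i, hM β' hβ' i⟩ : Fin M)) := by
      apply Fin.ext
      rw [finFunctionFinEquiv_apply, finFunctionFinEquiv_apply]
      exact h
    have h6 := finFunctionFinEquiv.injective h5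
    ext i
    have h7 := congrFun h6 i
    simpa using h7
  have hx : ∀ β, ∃ x : ℂ, w β = x • w γ := fun β => hD.ratio _ _ (hw0 γ hγ) (hratio β γ)
  choose x hx using hx
  have hx0 : ∀ β ∈ π0.support, x β ≠ 0 := by
    intro β hβ h
    apply hw0 β hβ
    rw [hx β, h, zero_smul]
  set h : Polynomial ℂ := ∑ β ∈ π0.support, Polynomial.monomial (ψ β) (x β) with hh
  have hcoe : ∀ β ∈ π0.support, h.coeff (ψ β) = x β := by
    intro β hβ
    rw [hh, Polynomial.finsetSum_coeff, Finset.sum_eq_single β]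
    · rw [Polynomial.coeff_monomial, if_pos rfl]
    · intro β' hβ' hne
      rw [Polynomial.coeff_monomial, if_neg]
      exact fun h' => hne (hψinj _ hβ' _ hβ h')
    · intro h'
      exact absurd hβ h'
  obtain ⟨z, hz0, hz⟩ := exists_root h (ψ γ) (ψ δ)
    (fun h' => hδγ (hψinj _ hδ _ hγ h'.symm))
    (by rw [hcoe γ hγ]; exact hx0 γ hγ) (by rw [hcoe δ hδ]; exact hx0 δ hδ)
  set y : Fin b → ℂ := fun i => z ^ (M ^ (i : ℕ)) with hy
  refine hev y (fun i => pow_ne_zero _ hz0) ?_
  have hE : ∀ p : MvPolynomial (Fin b) R,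
      ∑ β ∈ p.support, (∏ i, y i ^ β i) • (coeff β p * ∏ i, (t i : R) ^ β i) =
        eval (fun i => y i • (t i : R)) p := by
    intro p
    rw [eval_eq']
    refine Finset.sum_congr rfl fun β _ => ?_
    simp only [Algebra.smul_def, mul_pow, Finset.prod_mul_distrib, map_prod, map_pow]
    ring
  rw [hE]
  have hπz : eval (fun i => y i • (t i : R)) π0 = 0 := by
    rw [← hE]
    have h5 : ∀ β ∈ π0.support, (∏ i, y i ^ β i) • (coeff β π0 * ∏ i, (t i : R) ^ β i) =
        (x β * z ^ ψ β) • w γ := by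
      intro β _
      change (∏ i, y i ^ β i) • w β = _
      rw [hx β, smul_smul]
      congr 1
      rw [mul_comm]
      congr 1
      rw [hψ, hy, ← Finset.prod_pow_eq_pow_sum]
      refine Finset.prod_congr rfl fun i _ => ?_
      rw [← pow_mul, mul_comm]
    rw [Finset.sum_congr rfl h5, ← Finset.sum_smul]
    have h6 : ∑ β ∈ π0.support, x β * z ^ ψ β = 0 := by
      rw [← hz, hh, Polynomial.eval_finset_sum]
      refine Finset.sum_congr rfl fun β _ => ?_
      rw [Polynomial.eval_monomial]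
    rw [h6, zero_smul]
  have h7 := congrArg (eval (fun i => y i • (t i : R))) hcP
  rw [map_mul, map_mul, hπz, zero_mul, eval_C] at h7
  exact (mul_eq_zero.mp h7).resolve_left hc

end Pool.Agent.Y833.OG
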