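import Mathlib
import Pool.Agent.Y192.OG.StA

/-!
# Jobs OG-A1: linear algebra over two fields, and the dimension count
-/

set_option autoImplicit false

namespace Pool.Agent.Y833.OG

open MvPolynomial Pool.Agent.Y192.OG

theorem t_pivot : St_pivot := by
  intro F _ _ ι _ V L W hL hW
  classical
  set pr : ι → Module.Dual F V := fun i => (LinearMap.proj i).comp V.subtype with hpr
  obtain ⟨s, hsub, hspan, hli⟩ := exists_linearIndependent F (Set.range pr)
  have hfin : s.Finite := hli.setFinite
  haveI : Fintype s := hfin.fintype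
  have hcard : Fintype.card s ≤ Module.finrank F V := by
    have h1 := hli.fintype_card_le_finrank
    rwa [Subspace.dual_finrank_eq] at h1
  have hix : ∀ φ : s, ∃ i : ι, pr i = φ.1 := fun φ => hsub φ.2
  choose ix hix using hix
  let Ψ : W →ₗ[ℂ] (s → L) := LinearMap.pi fun φ =>
    LinearMap.codRestrict L ((LinearMap.proj (ix φ)).comp W.subtype)
      (fun w => (hW w.1 w.2).2 _)
  have hΨ : ∀ (w : W) (φ : s), ((Ψ w φ : L) : F) = w.1 (ix φ) := fun w φ => rfl
  have hinj : Function.Injective Ψ := by
    rw [← LinearMap.ker_eq_bot, LinearMap.ker_eq_bot']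
    intro w hw
    have hwV : w.1 ∈ V := (hW w.1 w.2).1
    have h1 : ∀ φ ∈ s, φ ⟨w.1, hwV⟩ = 0 := by
      intro φ hφ
      have h2 := hΨ w ⟨φ, hφ⟩
      rw [hw] at h2
      have h3 := hix ⟨φ, hφ⟩
      have h4 : pr (ix ⟨φ, hφ⟩) ⟨w.1, hwV⟩ = φ ⟨w.1, hwV⟩ := by rw [h3]
      rw [← h4]
      exact h2.symm
    have h5 : Submodule.span F s ≤ LinearMap.ker (Module.Dual.eval F V ⟨w.1, hwV⟩) := by
      rw [Submodule.span_le]
      intro φ hφ
      exact h1 φ hφ
    ext i
    have h6 : pr i ∈ Submodule.span F s := by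
      rw [hspan]
      exact Submodule.subset_span ⟨i, rfl⟩
    exact h5 h6
  haveI : FiniteDimensional ℂ W := Module.Finite.of_injective Ψ hinj
  refine ⟨inferInstance, ?_⟩
  have h7 := LinearMap.finrank_le_finrank_of_injective hinj
  rw [Module.finrank_pi_fintype] at h7
  simp only [Finset.sum_const, Finset.card_univ, smul_eq_mul] at h7
  exact h7.trans (Nat.mul_le_mul_right _ hcard)

section Box

variable {b : ℕ}

/-- the exponent attached to an element of a box -/
noncomputable def ex {D : Fin b → ℕ} (β : ∀ i, Fin (D i)) : Fin b →₀ ℕ :=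
  Finsupp.equivFunOnFinite.symm (fun i => (β i : ℕ))

theorem ex_apply {D : Fin b → ℕ} (β : ∀ i, Fin (D i)) (i : Fin b) : ex β i = β i := rfl

theorem ex_inj {D : Fin b → ℕ} : Function.Injective (ex (D := D)) := by
  intro β γ h
  ext i
  have := DFunLike.congr_fun h i
  simpa [ex_apply] using this

/-- the polynomial with given coefficients in a box -/
noncomputable def pol (S : Type) [CommRing S] (D : Fin b → ℕ) :
    ((∀ i, Fin (D i)) → S) →ₗ[S] MvPolynomial (Fin b) S :=
  ∑ β : (∀ i, Fin (D i)), (monomial (ex β)).comp (LinearMap.proj β)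

theorem pol_apply {S : Type} [CommRing S] (D : Fin b → ℕ) (a : (∀ i, Fin (D i)) → S) :
    pol S D a = ∑ β, monomial (ex β) (a β) := by
  simp [pol, LinearMap.sum_apply]

theorem coeff_pol {S : Type} [CommRing S] (D : Fin b → ℕ) (a : (∀ i, Fin (D i)) → S)
    (β : ∀ i, Fin (D i)) : coeff (ex β) (pol S D a) = a β := by
  classical
  rw [pol_apply, coeff_sum]
  simp only [coeff_monomial]
  rw [Finset.sum_eq_single β]
  · simp
  · intro γ _ hγ
    rw [if_neg]
    intro h
    exact hγ (ex_inj h)
  · intro h
    exact absurd (Finset.mem_univ _) h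

theorem coeff_pol_mem {S : Type} [CommRing S] (D : Fin b → ℕ) (a : (∀ i, Fin (D i)) → S)
    (γ : Fin b →₀ ℕ) : coeff γ (pol S D a) = 0 ∨ ∃ β, ex β = γ ∧ coeff γ (pol S D a) = a β := by
  classical
  by_cases h : ∃ β : (∀ i, Fin (D i)), ex β = γ
  · obtain ⟨β, rfl⟩ := h
    exact Or.inr ⟨β, rfl, coeff_pol D a β⟩
  · left
    rw [pol_apply, coeff_sum]
    refine Finset.sum_eq_zero fun β _ => ?_
    rw [coeff_monomial, if_neg]
    exact fun h' => h ⟨β, h'⟩

theorem pol_support {S : Type} [CommRing S] (D : Fin b → ℕ) (a : (∀ i, Fin (D i)) → S)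
    (γ : Fin b →₀ ℕ) (hγ : γ ∈ (pol S D a).support) (i : Fin b) : γ i < D i := by
  rcases coeff_pol_mem D a γ with h | ⟨β, rfl, _⟩
  · exact absurd h (mem_support_iff.mp hγ)
  · rw [ex_apply]
    exact (β i).2

theorem pol_eq {S : Type} [CommRing S] (D : Fin b → ℕ) (p : MvPolynomial (Fin b) S)
    (h : ∀ γ ∈ p.support, ∀ i, γ i < D i) : pol S D (fun β => coeff (ex β) p) = p := by
  classical
  ext γ
  by_cases hγ : ∀ i, γ i < D i
  · have : γ = ex (D := D) (fun i => ⟨γ i, hγ i⟩) := by
      ext i
      rfl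
    rw [this, coeff_pol]
  · have h1 : coeff γ p = 0 := by
      by_contra hne
      exact hγ (h γ (mem_support_iff.mpr hne))
    rw [h1]
    by_contra hne
    exact hγ (fun i => pol_support D _ γ (mem_support_iff.mpr hne) i)

theorem pol_injective {S : Type} [CommRing S] (D : Fin b → ℕ) (a : (∀ i, Fin (D i)) → S)
    (h : pol S D a = 0) : a = 0 := by
  ext β
  have := coeff_pol D a β
  rw [h, coeff_zero] at this
  exact this.symm

theorem map_pol {S T : Type} [CommRing S] [CommRing T] (f : S →+* T) (D : Fin b → ℕ)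
    (a : (∀ i, Fin (D i)) → S) : map f (pol S D a) = pol T D (fun β => f (a β)) := by
  rw [pol_apply, pol_apply, map_sum]
  simp [map_monomial]

theorem eval_pol {S : Type} [CommRing S] (D : Fin b → ℕ) (t : Fin b → S)
    (a : (∀ i, Fin (D i)) → S) :
    eval t (pol S D a) = ∑ β, a β * ∏ i, t i ^ (ex β i) := by
  rw [pol_apply, map_sum]
  refine Finset.sum_congr rfl fun β _ => ?_
  rw [eval_monomial, Finsupp.prod_fintype]
  intro i
  exact pow_zero _

end Box

/-- multiples of `P` in a box -/
noncomputable def mulBox {b : ℕ} (F : Type) [Field F] (K : ℕ) (P : MvPolynomial (Fin b) F) :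
    Submodule F ((∀ _ : Fin b, Fin K) → F) :=
  Submodule.comap (pol F (fun _ => K)) ((Ideal.span {P}).restrictScalars F)

theorem mem_mulBox {b : ℕ} (F : Type) [Field F] (K : ℕ) (P : MvPolynomial (Fin b) F)
    (c : (∀ _ : Fin b, Fin K) → F) : c ∈ mulBox F K P ↔ P ∣ pol F (fun _ => K) c := by
  rw [mulBox, Submodule.mem_comap, Submodule.restrictScalars_mem, Ideal.mem_span_singleton]

theorem finrank_mulBox {b : ℕ} (F : Type) [Field F] (K : ℕ) (P : MvPolynomial (Fin b) F)
    (hP : P ≠ 0) : Module.finrank F (mulBox F K P) ≤ ∏ i, (K - P.degreeOf i) := by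
  classical
  let G : ((∀ i, Fin (K - P.degreeOf i)) → F) →ₗ[F] ((∀ _ : Fin b, Fin K) → F) :=
    LinearMap.pi fun β => (lcoeff F (ex β)).comp
      ((LinearMap.mulLeft F P).comp (pol F (fun i => K - P.degreeOf i)))
  have hle : mulBox F K P ≤ LinearMap.range G := by
    intro c hc
    rw [mem_mulBox] at hc
    obtain ⟨h, hh⟩ := hc
    by_cases h0 : h = 0
    · rw [h0, mul_zero] at hh
      have := pol_injective _ _ hh
      rw [this]
      exact Submodule.zero_mem _
    · have hdeg : ∀ i, P.degreeOf i + h.degreeOf i < K := by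
        intro i
        rw [← degreeOf_mul_eq hP h0, ← hh]
        have hne : pol F (fun _ => K) c ≠ 0 := by
          rw [hh]
          exact mul_ne_zero hP h0
        have hK : 0 < K := by
          obtain ⟨γ, hγ⟩ := MvPolynomial.ne_zero_iff.mp hne
          have := pol_support (fun _ => K) c γ (mem_support_iff.mpr hγ) i
          omega
        rw [degreeOf_lt_iff hK]
        intro γ hγ
        exact pol_support (fun _ => K) c γ hγ i
      have hbox : ∀ γ ∈ h.support, ∀ i, γ i < K - P.degreeOf i := by
        intro γ hγ i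
        have h1 := monomial_le_degreeOf i hγ
        have h2 := hdeg i
        omega
      refine ⟨fun β => coeff (ex β) h, ?_⟩
      ext β
      change coeff (ex β) (P * pol F (fun i => K - P.degreeOf i) (fun β => coeff (ex β) h)) = c β
      rw [pol_eq _ h hbox, ← hh, coeff_pol]
  calc Module.finrank F (mulBox F K P) ≤ Module.finrank F (LinearMap.range G) :=
        Submodule.finrank_mono hle
    _ ≤ Module.finrank F ((∀ i, Fin (K - P.degreeOf i)) → F) := LinearMap.finrank_range_le G
    _ = ∏ i, (K - P.degreeOf i) := by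
        rw [Module.finrank_fintype_fun_eq_card, Fintype.card_pi]
        simp

theorem degreeOf_map_inj {b : ℕ} {S T : Type} [CommRing S] [CommRing T] (f : S →+* T)
    (hf : Function.Injective f) (p : MvPolynomial (Fin b) S) (i : Fin b) :
    (map f p).degreeOf i = p.degreeOf i := by
  classical
  rw [degreeOf_eq_sup, degreeOf_eq_sup, support_map_of_injective _ hf]

/-- the box -/
abbrev BI (b K : ℕ) : Type := ∀ _ : Fin b, Fin K

theorem t_dim : St_dim := by
  intro R _ _ _ b t P Q L L' K hP0 hrel hQP hPK hL hL' hgen V hV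
  classical
  have hinjF : Function.Injective (algebraMap R (FractionRing R)) := IsFractionRing.injective R (FractionRing R)
  set tt : Fin b → R := fun j => (t j : R) with htt
  -- the two pieces of the map
  let lin : R → (((BI b K) → L) →ₗ[ℂ] R) := fun q =>
    ∑ β : (BI b K), (LinearMap.mulRight ℂ ((∏ i, tt i ^ (ex β i)) * q)).comp
      (L.subtype.comp (LinearMap.proj β))
  have hlin : ∀ q (a : (BI b K) → L), lin q a = ∑ β, (a β : R) * ((∏ i, tt i ^ (ex β i)) * q) := by
    intro q a
    simp only [lin, LinearMap.sum_apply]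
    rfl
  have hlin' : ∀ (p : MvPolynomial (Fin b) R) (a : (BI b K) → L),
      lin (eval tt p) a = eval tt (pol R (fun _ => K) (fun β => (a β : R)) * p) := by
    intro p a
    rw [hlin, map_mul, eval_pol, Finset.sum_mul]
    refine Finset.sum_congr rfl fun β _ => ?_
    ring
  let Φ : (((BI b K) → L) × ((BI b K) → L)) →ₗ[ℂ] R := (lin (eval tt P)).coprod (lin (eval tt Q))
  have hΦ : ∀ x, Φ x = eval tt (pol R (fun _ => K) (fun β => (x.1 β : R)) * P +
      pol R (fun _ => K) (fun β => (x.2 β : R)) * Q) := by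
    intro x
    rw [map_add, ← hlin', ← hlin']
    rfl
  -- range
  have hrange : LinearMap.range Φ = V := by
    apply le_antisymm
    · rintro _ ⟨x, rfl⟩
      change lin (eval tt P) x.1 + lin (eval tt Q) x.2 ∈ V
      rw [hlin, hlin, hV]
      refine Submodule.add_mem _ (Submodule.sum_mem _ fun β _ => Submodule.subset_span ?_)
        (Submodule.sum_mem _ fun β _ => Submodule.subset_span ?_)
      · exact ⟨x.1 β, (x.1 β).2, ex β, fun i => (β i).2, Or.inl (mul_assoc _ _ _).symm⟩
      · exact ⟨x.2 β, (x.2 β).2, ex β, fun i => (β i).2, Or.inr (mul_assoc _ _ _).symm⟩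
    · rw [hV, Submodule.span_le]
      rintro y ⟨x, hx, β, hβ, hy⟩
      have hβe : β = ex (D := fun _ => K) (fun i => ⟨β i, hβ i⟩) := by
        ext i
        rfl
      have hsing : ∀ q, lin q (Pi.single (fun i => (⟨β i, hβ i⟩ : Fin K)) ⟨x, hx⟩) =
          x * (∏ i, tt i ^ β i) * q := by
        intro q
        rw [hlin, Finset.sum_eq_single (fun i => (⟨β i, hβ i⟩ : Fin K))]
        · rw [Pi.single_eq_same, ← hβe]
          ring
        · intro γ _ hγ
          rw [Pi.single_eq_of_ne hγ]
          simp
        · intro h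
          exact absurd (Finset.mem_univ _) h
      rcases hy with hy | hy
      · refine ⟨(Pi.single (fun i => (⟨β i, hβ i⟩ : Fin K)) ⟨x, hx⟩, 0), ?_⟩
        change lin (eval tt P) (Pi.single (fun i => (⟨β i, hβ i⟩ : Fin K)) ⟨x, hx⟩) +
          lin (eval tt Q) 0 = y
        rw [map_zero, add_zero, hsing, hy]
      · refine ⟨(0, Pi.single (fun i => (⟨β i, hβ i⟩ : Fin K)) ⟨x, hx⟩), ?_⟩
        change lin (eval tt P) 0 +
          lin (eval tt Q) (Pi.single (fun i => (⟨β i, hβ i⟩ : Fin K)) ⟨x, hx⟩) = y
        rw [map_zero, zero_add, hsing, hy]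
  haveI hfinV : FiniteDimensional ℂ V := by
    rw [← hrange]
    infer_instance
  refine ⟨hfinV, ?_⟩
  -- kernel
  have hker : ∀ x ∈ LinearMap.ker Φ, pol R (fun _ => K) (fun β => (x.1 β : R)) * P +
      pol R (fun _ => K) (fun β => (x.2 β : R)) * Q = 0 := by
    intro x hx
    rw [LinearMap.mem_ker, hΦ] at hx
    refine hgen _ ?_ ?_ hx
    · intro β
      have hco : ∀ (a : (BI b K) → L) (p : MvPolynomial (Fin b) R),
          (∀ x ∈ L, ∀ β, x * coeff β p ∈ L') →
          coeff β (pol R (fun _ => K) (fun β => (a β : R)) * p) ∈ L' := by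
        intro a p hp
        rw [coeff_mul]
        refine Submodule.sum_mem _ fun γ _ => hp _ ?_ _
        rcases coeff_pol_mem (fun _ => K) (fun β => (a β : R)) γ.1 with h | ⟨δ, _, h⟩
        · rw [h]
          exact L.zero_mem
        · rw [h]
          exact (a δ).2
      rw [coeff_add]
      exact L'.add_mem (hco _ _ fun x hx β => (hL' x hx β).1)
        (hco _ _ fun x hx β => (hL' x hx β).2)
    · intro β hβ i
      have hsu : ∀ (a : (BI b K) → L) (p : MvPolynomial (Fin b) R), p.degreeOf i ≤ P.degreeOf i →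
          β ∈ (pol R (fun _ => K) (fun β => (a β : R)) * p).support →
          β i < K + P.degreeOf i := by
        intro a p hp hβ
        have h1 := support_mul _ _ hβ
        rw [Finset.mem_add] at h1
        obtain ⟨β1, hβ1, β2, hβ2, rfl⟩ := h1
        have h2 := pol_support (fun _ => K) _ β1 hβ1 i
        have h3 := monomial_le_degreeOf i hβ2
        rw [Finsupp.add_apply]
        omega
      have h4 := support_add hβ
      rw [Finset.mem_union] at h4
      rcases h4 with h4 | h4
      · exact hsu _ _ le_rfl h4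
      · exact hsu _ _ (hQP i) h4
  set P' := map (algebraMap R (FractionRing R)) P with hP'
  set Q' := map (algebraMap R (FractionRing R)) Q with hQ'
  have hP'0 : P' ≠ 0 := by
    intro h
    exact hP0 (map_injective _ hinjF (by rw [← hP', h, map_zero]))
  -- the map to the field
  let N0 : (((BI b K) → L) × ((BI b K) → L)) →ₗ[ℂ] ((BI b K) → (FractionRing R)) :=
    (LinearMap.pi fun β => (((IsScalarTower.toAlgHom ℂ R (FractionRing R)).toLinearMap.comp L.subtype).comp
      (LinearMap.proj β))).comp (LinearMap.snd ℂ ((BI b K) → L) ((BI b K) → L))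
  have hN0 : ∀ x β, N0 x β = algebraMap R (FractionRing R) (x.2 β : R) := fun x β => rfl
  let N : LinearMap.ker Φ →ₗ[ℂ] ((BI b K) → (FractionRing R)) := N0.comp (LinearMap.ker Φ).subtype
  have hNinj : Function.Injective N := by
    intro x y hxy
    have h1 : x.1.2 = y.1.2 := by
      ext β
      exact hinjF (congrFun hxy β)
    have h3 := hker x.1 x.2
    have h3' := hker y.1 y.2
    rw [h1] at h3
    have h5 : pol R (fun _ => K) (fun β => (x.1.1 β : R)) =
        pol R (fun _ => K) (fun β => (y.1.1 β : R)) :=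
      mul_right_cancel₀ hP0 (by linear_combination h3 - h3')
    have h7 : x.1.1 = y.1.1 := by
      ext β
      have h8 := coeff_pol (fun _ => K) (fun β => (x.1.1 β : R)) β
      rw [h5, coeff_pol] at h8
      exact h8.symm
    exact Subtype.ext (Prod.ext h7 h1)
  set LF : Submodule ℂ (FractionRing R) := L.map (IsScalarTower.toAlgHom ℂ R (FractionRing R)).toLinearMap with hLF
  have hpiv := t_pivot (FractionRing R) (BI b K) (mulBox (FractionRing R) K P') LF (LinearMap.range N) inferInstance (by
    rintro _ ⟨x, rfl⟩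
    constructor
    · rw [mem_mulBox]
      have h1 := congrArg (map (algebraMap R (FractionRing R))) (hker x.1 x.2)
      rw [map_zero, map_add, map_mul, map_mul, map_pol, map_pol] at h1
      have h2 : P' ∣ pol (FractionRing R) (fun _ => K) (fun β => algebraMap R (FractionRing R) (x.1.2 β : R)) * Q' := by
        refine ⟨-pol (FractionRing R) (fun _ => K) (fun β => algebraMap R (FractionRing R) (x.1.1 β : R)), ?_⟩
        linear_combination h1
      exact hrel.dvd_of_dvd_mul_right h2
    · intro β
      exact ⟨(x.1.2 β : R), (x.1.2 β).2, rfl⟩)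
  obtain ⟨_, hpiv⟩ := hpiv
  have h1 := LinearMap.finrank_range_add_finrank_ker Φ
  have h2 : Module.finrank ℂ (((BI b K) → L) × ((BI b K) → L)) = 2 * K ^ b * Module.finrank ℂ L := by
    rw [Module.finrank_prod, Module.finrank_pi_fintype]
    simp only [Finset.sum_const, Finset.card_univ, smul_eq_mul]
    have : Fintype.card (BI b K) = K ^ b := (show Fintype.card (Fin b → Fin K) = K ^ b by simp)
    rw [this]
    ring
  rw [h2, hrange] at h1
  have h3 : Module.finrank ℂ (LinearMap.ker Φ) = Module.finrank ℂ (LinearMap.range N) :=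
    (LinearMap.finrank_range_of_inj hNinj).symm
  have h4 : Module.finrank ℂ LF ≤ Module.finrank ℂ L := Submodule.finrank_map_le _ _
  have h5 : Module.finrank (FractionRing R) (mulBox (FractionRing R) K P') ≤ ∏ i, (K - P.degreeOf i) := by
    have := finrank_mulBox (FractionRing R) K P' hP'0
    simpa only [hP', degreeOf_map_inj _ hinjF] using this
  have h6 : Module.finrank ℂ (LinearMap.ker Φ) ≤
      (∏ i, (K - P.degreeOf i)) * Module.finrank ℂ L := by
    rw [h3]
    exact hpiv.trans (Nat.mul_le_mul h5 h4)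
  omega

end Pool.Agent.Y833.OG
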