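import Mathlib
import Pool.Agent.Y192.OG.StA
import Pool.Agent.Y192.OG.StC

/-!
# Job OG-C1: the squarefree polynomial attached to a Laurent polynomial and a saturated subgroup
-/

set_option autoImplicit false

namespace Pool.Agent.Y833.OG

open Pool.Agent.Y192.OG

/-- Laurent polynomials -/
abbrev Lau (N : ℕ) : Type := AddMonoidAlgebra ℂ (Fin N → ℤ)

theorem basis_exists {N : ℕ} (Γ : Submodule ℤ (Fin N → ℤ)) (hs : Sat Γ) :
    ∃ (b : ℕ) (bt : Fin b → Fin N → ℤ) (co : (Fin N → ℤ) →+ (Fin b → ℤ)),
      (∀ m, co m = 0 ↔ m ∈ Γ) ∧ (∀ j, co (bt j) = Pi.single j 1) := by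
  haveI : Module.IsTorsionFree ℤ ((Fin N → ℤ) ⧸ Γ) := by
    rw [Module.isTorsionFree_iff_smul_eq_zero]
    intro n q h
    obtain ⟨m, rfl⟩ := Γ.mkQ_surjective q
    by_cases hn : n = 0
    · exact Or.inl hn
    · right
      rw [← map_smul, Submodule.mkQ_apply, Submodule.Quotient.mk_eq_zero] at h
      rw [Submodule.mkQ_apply, Submodule.Quotient.mk_eq_zero]
      exact hs n m hn h
  haveI : Module.Free ℤ ((Fin N → ℤ) ⧸ Γ) := inferInstance
  let B := Module.finBasis ℤ ((Fin N → ℤ) ⧸ Γ)
  have h1 : ∀ j, ∃ m, Γ.mkQ m = B j := fun j => Γ.mkQ_surjective _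
  choose bt hbt using h1
  refine ⟨_, bt, (B.equivFun.toLinearMap.comp Γ.mkQ).toAddMonoidHom, ?_, ?_⟩
  · intro m
    change B.equivFun (Γ.mkQ m) = 0 ↔ _
    rw [LinearEquiv.map_eq_zero_iff, Submodule.mkQ_apply, Submodule.Quotient.mk_eq_zero]
  · intro j
    change B.equivFun (Γ.mkQ (bt j)) = _
    rw [hbt]
    ext i
    rw [Module.Basis.equivFun_self, Pi.single_apply]
    simp only [eq_comm]

section Cmp

variable {N b : ℕ} (co : (Fin N → ℤ) →+ (Fin b → ℤ)) (bt : Fin b → Fin N → ℤ)

/-- component -/
noncomputable def cmp (c : Fin b → ℤ) (g : Lau N) : Lau N :=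
  AddMonoidAlgebra.ofCoeff (g.coeff.filter fun m => co m = c)

/-- lift of a vector -/
def Bv (c : Fin b → ℤ) : Fin N → ℤ := ∑ j, c j • bt j

/-- the rest -/
def rs (m : Fin N → ℤ) : Fin N → ℤ := m - Bv bt (co m)

theorem Bv_add (c d : Fin b → ℤ) : Bv bt (c + d) = Bv bt c + Bv bt d := by
  simp only [Bv, Pi.add_apply, add_smul, Finset.sum_add_distrib]

theorem Bv_neg (c : Fin b → ℤ) : Bv bt (-c) = -Bv bt c := by
  simp only [Bv, Pi.neg_apply, neg_smul, Finset.sum_neg_distrib]

theorem Bv_zero : Bv bt (0 : Fin b → ℤ) = 0 := by simp [Bv]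

variable {co bt} (hbt : ∀ j, co (bt j) = Pi.single j 1)

include hbt in
theorem co_Bv (c : Fin b → ℤ) : co (Bv bt c) = c := by
  rw [Bv, map_sum]
  simp only [map_zsmul, hbt]
  ext i
  simp [Finset.sum_apply, Pi.single_apply]

theorem rs_add (m m' : Fin N → ℤ) : rs co bt (m + m') = rs co bt m + rs co bt m' := by
  rw [rs, rs, rs, map_add, Bv_add]
  abel

include hbt in
theorem rs_Bv (c : Fin b → ℤ) : rs co bt (Bv bt c) = 0 := by
  rw [rs, co_Bv hbt, sub_self]

theorem rs_of_zero {m : Fin N → ℤ} (h : co m = 0) : rs co bt m = m := by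
  rw [rs, h, Bv_zero, sub_zero]

theorem cmp_coeff (c : Fin b → ℤ) (g : Lau N) (m : Fin N → ℤ) :
    (cmp co c g).coeff m = if co m = c then g.coeff m else 0 := by
  rw [cmp, AddMonoidAlgebra.coeff_ofCoeff, Finsupp.filter_apply]

theorem cmp_add (c : Fin b → ℤ) (g h : Lau N) : cmp co c (g + h) = cmp co c g + cmp co c h := by
  rw [cmp, AddMonoidAlgebra.coeff_add, Finsupp.filter_add]
  rfl

theorem cmp_zero (c : Fin b → ℤ) : cmp co c (0 : Lau N) = 0 := by
  ext m
  rw [cmp_coeff]
  simp

theorem cmp_single (c : Fin b → ℤ) (m : Fin N → ℤ) (x : ℂ) :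
    cmp co c (AddMonoidAlgebra.single m x) =
      if co m = c then AddMonoidAlgebra.single m x else 0 := by
  ext m'
  rw [cmp_coeff]
  split_ifs with h1 h2 h2
  · rfl
  · rw [AddMonoidAlgebra.coeff_single, Finsupp.single_apply, if_neg, AddMonoidAlgebra.coeff_zero,
      Finsupp.zero_apply]
    rintro rfl
    exact h2 h1
  · rw [AddMonoidAlgebra.coeff_single, Finsupp.single_apply, if_neg]
    rintro rfl
    exact h1 h2
  · rfl

theorem sum_cmp (g : Lau N) (s : Finset (Fin b → ℤ)) (hs : ∀ m ∈ g.coeff.support, co m ∈ s) :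
    ∑ c ∈ s, cmp co c g = g := by
  ext m
  rw [AddMonoidAlgebra.coeff_sum, Finsupp.finsetSum_apply]
  simp only [cmp_coeff]
  by_cases hm : m ∈ g.coeff.support
  · rw [Finset.sum_ite_eq, if_pos (hs m hm)]
  · have h0 : g.coeff m = 0 := by simpa using hm
    rw [h0]
    simp

end Cmp

section Hat

variable {N b : ℕ} {co : (Fin N → ℤ) →+ (Fin b → ℤ)} {bt : Fin b → Fin N → ℤ}
  (hbt : ∀ j, co (bt j) = Pi.single j 1)
  {R : Type} [CommRing R] [IsDomain R] [Algebra ℂ R] (ev : Lau N →ₐ[ℂ] R)

/-- Laurent polynomials over the fraction field -/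
abbrev TT (R : Type) [CommRing R] (b : ℕ) : Type :=
  AddMonoidAlgebra (FractionRing R) (Fin b → ℤ)

variable (co bt) in
/-- the ring homomorphism -/
noncomputable def Hat : Lau N →ₐ[ℂ] TT R b :=
  AddMonoidAlgebra.lift ℂ (TT R b) (Fin N → ℤ)
    { toFun := fun m => AddMonoidAlgebra.single (co m.toAdd)
        (algebraMap R (FractionRing R) (ev (AddMonoidAlgebra.single (rs co bt m.toAdd) 1)))
      map_one' := by
        have h1 : co (Multiplicative.toAdd (1 : Multiplicative (Fin N → ℤ))) = 0 := by
          rw [toAdd_one, map_zero]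
        rw [h1, rs_of_zero h1, toAdd_one, ← AddMonoidAlgebra.one_def, map_one, map_one]
        rfl
      map_mul' := by
        intro m m'
        rw [AddMonoidAlgebra.single_mul_single, toAdd_mul, map_add, rs_add, ← map_mul, ← map_mul,
          AddMonoidAlgebra.single_mul_single, mul_one] }

theorem Hat_single (m : Fin N → ℤ) (x : ℂ) :
    Hat co bt ev (AddMonoidAlgebra.single m x) = AddMonoidAlgebra.single (co m)
      (algebraMap R (FractionRing R) (ev (AddMonoidAlgebra.single (rs co bt m) x))) := by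
  rw [Hat, AddMonoidAlgebra.lift_single]
  change x • AddMonoidAlgebra.single (co m) _ = _
  rw [AddMonoidAlgebra.smul_single]
  congr 1
  have h1 : (AddMonoidAlgebra.single (rs co bt m) x : Lau N) =
      x • AddMonoidAlgebra.single (rs co bt m) 1 := by
    rw [AddMonoidAlgebra.smul_single, smul_eq_mul, mul_one]
  rw [h1, map_smul]
  exact (map_smul (IsScalarTower.toAlgHom ℂ R (FractionRing R)) x _).symm

theorem Hat_coeff (g : Lau N) (c : Fin b → ℤ) : (Hat co bt ev g).coeff c =
    algebraMap R (FractionRing R) (ev (cmp co c g * AddMonoidAlgebra.single (-Bv bt c) 1)) := by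
  induction g using AddMonoidAlgebra.induction_linear with
  | zero => rw [cmp_zero]; simp
  | add g h ihg ihh =>
    rw [map_add, AddMonoidAlgebra.coeff_add, Finsupp.add_apply, ihg, ihh, cmp_add, add_mul,
      map_add, map_add]
  | single m x =>
    rw [Hat_single, cmp_single, AddMonoidAlgebra.coeff_single, Finsupp.single_apply]
    split_ifs with h
    · rw [AddMonoidAlgebra.single_mul_single, mul_one, rs, h, sub_eq_add_neg]
    · rw [zero_mul, map_zero, map_zero]

include hbt in
theorem Hat_Bv (c : Fin b → ℤ) : Hat co bt ev (AddMonoidAlgebra.single (Bv bt c) 1) =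
    AddMonoidAlgebra.single c 1 := by
  rw [Hat_single, co_Bv hbt, rs_Bv hbt, ← AddMonoidAlgebra.one_def, map_one, map_one]

theorem Hat_zero_of_supp (g : Lau N) (hg : ∀ m ∈ g.coeff.support, co m = 0) :
    Hat co bt ev g = AddMonoidAlgebra.single 0 (algebraMap R (FractionRing R) (ev g)) := by
  have h1 : g = ∑ m ∈ g.coeff.support, AddMonoidAlgebra.single m (g.coeff m) :=
    (AddMonoidAlgebra.sum_coeff_single g).symm
  have h2 : Hat co bt ev g = ∑ m ∈ g.coeff.support, AddMonoidAlgebra.single 0
      (algebraMap R (FractionRing R) (ev (AddMonoidAlgebra.single m (g.coeff m)))) := by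
    conv_lhs => rw [h1]
    rw [map_sum]
    refine Finset.sum_congr rfl fun m hm => ?_
    rw [Hat_single, rs_of_zero (hg m hm), hg m hm]
  have h3 : ev g = ∑ m ∈ g.coeff.support, ev (AddMonoidAlgebra.single m (g.coeff m)) := by
    conv_lhs => rw [h1]
    rw [map_sum]
  rw [h2, h3, map_sum]
  exact (map_sum (AddMonoidAlgebra.singleAddHom (0 : Fin b → ℤ)) _ _).symm

/-- derivation of the Laurent polynomials over a field -/
noncomputable def dl {K : Type} [Field K] (j : Fin b) (t : AddMonoidAlgebra K (Fin b → ℤ)) :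
    AddMonoidAlgebra K (Fin b → ℤ) :=
  ∑ c ∈ t.coeff.support, AddMonoidAlgebra.single c ((c j : K) * t.coeff c)

theorem dl_coeff {K : Type} [Field K] (j : Fin b) (t : AddMonoidAlgebra K (Fin b → ℤ))
    (c : Fin b → ℤ) : (dl j t).coeff c = (c j : K) * t.coeff c := by
  classical
  rw [dl, AddMonoidAlgebra.coeff_sum, Finsupp.finsetSum_apply]
  simp only [AddMonoidAlgebra.coeff_single, Finsupp.single_apply]
  rw [Finset.sum_ite_eq']
  split_ifs with h
  · rfl
  · have h0 : t.coeff c = 0 := by simpa using h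
    rw [h0, mul_zero]

theorem dl_add {K : Type} [Field K] (j : Fin b) (t u : AddMonoidAlgebra K (Fin b → ℤ)) :
    dl j (t + u) = dl j t + dl j u := by
  ext c
  simp only [dl_coeff, AddMonoidAlgebra.coeff_add, Finsupp.add_apply]
  ring

theorem dl_single {K : Type} [Field K] (j : Fin b) (c : Fin b → ℤ) (x : K) :
    dl j (AddMonoidAlgebra.single c x) = AddMonoidAlgebra.single c ((c j : K) * x) := by
  classical
  ext d
  rw [dl_coeff, AddMonoidAlgebra.coeff_single, AddMonoidAlgebra.coeff_single,
    Finsupp.single_apply, Finsupp.single_apply]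
  split_ifs with h
  · rw [h]
  · rw [mul_zero]

theorem dl_zero {K : Type} [Field K] (j : Fin b) :
    dl j (0 : AddMonoidAlgebra K (Fin b → ℤ)) = 0 := by
  ext d
  simp [dl_coeff]

theorem dl_sum {K ι : Type} [Field K] (j : Fin b) (s : Finset ι)
    (g : ι → AddMonoidAlgebra K (Fin b → ℤ)) : dl j (∑ i ∈ s, g i) = ∑ i ∈ s, dl j (g i) := by
  classical
  induction s using Finset.induction_on with
  | empty => simp [dl_zero]
  | insert a s ha ih => rw [Finset.sum_insert ha, Finset.sum_insert ha, dl_add, ih]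

theorem dl_mul_single {K : Type} [Field K] (j : Fin b) (c : Fin b → ℤ)
    (t : AddMonoidAlgebra K (Fin b → ℤ)) :
    dl j (AddMonoidAlgebra.single c 1 * t) = AddMonoidAlgebra.single c ((c j : K)) * t +
      AddMonoidAlgebra.single c 1 * dl j t := by
  induction t using AddMonoidAlgebra.induction_linear with
  | zero => simp [dl_zero]
  | add t u iht ihu =>
    rw [mul_add, dl_add, dl_add, iht, ihu, mul_add, mul_add]
    ring
  | single d x =>
    rw [dl_single]
    simp only [AddMonoidAlgebra.single_mul_single, dl_single, one_mul]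
    rw [← AddMonoidAlgebra.single_add, Pi.add_apply]
    congr 1
    push_cast
    ring

/-- exponents as integer vectors -/
def ti (β : Fin b →₀ ℕ) : Fin b → ℤ := fun j => (β j : ℤ)

theorem ti_inj : Function.Injective (ti (b := b)) := by
  intro β γ h
  ext j
  have := congrFun h j
  simpa [ti] using this

theorem ti_add (β γ : Fin b →₀ ℕ) : ti (β + γ) = ti β + ti γ := by
  ext j
  simp [ti]

theorem ti_zero : ti (0 : Fin b →₀ ℕ) = 0 := by
  ext j
  simp [ti]

/-- polynomials as Laurent polynomials -/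
noncomputable def io (K : Type) [Field K] (b : ℕ) :
    MvPolynomial (Fin b) K →ₐ[K] AddMonoidAlgebra K (Fin b → ℤ) :=
  MvPolynomial.aeval fun j => AddMonoidAlgebra.single (Pi.single j 1) 1

theorem io_monomial {K : Type} [Field K] (β : Fin b →₀ ℕ) (x : K) :
    io K b (MvPolynomial.monomial β x) = AddMonoidAlgebra.single (ti β) x := by
  classical
  have h1 : ∀ β : Fin b →₀ ℕ, io K b (MvPolynomial.monomial β 1) =
      AddMonoidAlgebra.single (ti β) 1 := by
    intro β
    induction β using Finsupp.induction_linear with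
    | zero =>
      rw [ti_zero, ← AddMonoidAlgebra.one_def]
      change io K b 1 = 1
      rw [map_one]
    | add β γ h1 h2 =>
      have : (MvPolynomial.monomial (β + γ) (1 : K)) = MvPolynomial.monomial β 1 *
          MvPolynomial.monomial γ 1 := by rw [MvPolynomial.monomial_mul, one_mul]
      rw [this, map_mul, h1, h2, AddMonoidAlgebra.single_mul_single, ti_add, one_mul]
    | single j n =>
      rw [← MvPolynomial.X_pow_eq_monomial, map_pow, io, MvPolynomial.aeval_X,
        AddMonoidAlgebra.single_pow, one_pow]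
      congr 1
      ext i
      simp only [Pi.smul_apply, ti, Finsupp.single_apply, Pi.single_apply, nsmul_eq_mul]
      split_ifs with h1 h2 h2
      · simp
      · exact absurd h1.symm h2
      · exact absurd h2.symm h1
      · simp
  have h2 : MvPolynomial.monomial β x = MvPolynomial.C x * MvPolynomial.monomial β 1 := by
    rw [MvPolynomial.C_mul_monomial, mul_one]
  rw [h2, map_mul, h1, ← MvPolynomial.algebraMap_eq, AlgHom.commutes,
    AddMonoidAlgebra.coe_algebraMap]
  simp [AddMonoidAlgebra.single_mul_single]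

theorem io_coeff {K : Type} [Field K] (p : MvPolynomial (Fin b) K) (β : Fin b →₀ ℕ) :
    (io K b p).coeff (ti β) = MvPolynomial.coeff β p := by
  classical
  induction p using MvPolynomial.induction_on' with
  | monomial γ x =>
    rw [io_monomial, AddMonoidAlgebra.coeff_single, Finsupp.single_apply,
      MvPolynomial.coeff_monomial]
    simp only [ti_inj.eq_iff]
  | add p q hp hq =>
    rw [map_add, AddMonoidAlgebra.coeff_add, Finsupp.add_apply, hp, hq, MvPolynomial.coeff_add]

theorem io_inj {K : Type} [Field K] : Function.Injective (io K b) := by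
  intro p q h
  ext β
  rw [← io_coeff, ← io_coeff, h]

theorem dl_io {K : Type} [Field K] (j : Fin b) (p : MvPolynomial (Fin b) K) :
    dl j (io K b p) = io K b (MvPolynomial.X j * MvPolynomial.pderiv j p) := by
  classical
  induction p using MvPolynomial.induction_on' with
  | monomial γ x =>
    rw [io_monomial, dl_single, MvPolynomial.pderiv_monomial, MvPolynomial.X,
      MvPolynomial.monomial_mul, io_monomial, one_mul]
    by_cases h : γ j = 0
    · have : ti γ j = 0 := by simp [ti, h]
      rw [this, h]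
      simp
    · congr 1
      · rw [add_comm, Finsupp.sub_add_single_one_cancel h]
      · simp only [ti]
        push_cast
        ring
  | add p q hp hq =>
    rw [map_add, dl_add, hp, hq, map_add, mul_add, map_add]

/-- clearing denominators -/
theorem io_clear {K : Type} [Field K] (t : AddMonoidAlgebra K (Fin b → ℤ)) :
    ∃ k0 : ℕ, ∀ k : ℕ, k0 ≤ k → ∃ p : MvPolynomial (Fin b) K,
      t * AddMonoidAlgebra.single (fun _ => (k : ℤ)) 1 = io K b p := by
  classical
  induction t using AddMonoidAlgebra.induction_linear with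
  | zero => exact ⟨0, fun k _ => ⟨0, by simp⟩⟩
  | add t u iht ihu =>
    obtain ⟨k1, h1⟩ := iht
    obtain ⟨k2, h2⟩ := ihu
    refine ⟨max k1 k2, fun k hk => ?_⟩
    obtain ⟨p, hp⟩ := h1 k (le_trans (le_max_left _ _) hk)
    obtain ⟨q, hq⟩ := h2 k (le_trans (le_max_right _ _) hk)
    exact ⟨p + q, by rw [add_mul, hp, hq, map_add]⟩
  | single c x =>
    refine ⟨∑ j, (c j).natAbs, fun k hk => ?_⟩
    refine ⟨MvPolynomial.monomial (Finsupp.equivFunOnFinite.symm fun j => (c j + k).toNat) x, ?_⟩
    rw [io_monomial, AddMonoidAlgebra.single_mul_single, mul_one]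
    congr 1
    ext j
    have h1 : (c j).natAbs ≤ ∑ j, (c j).natAbs :=
      Finset.single_le_sum (f := fun j => (c j).natAbs) (fun _ _ => Nat.zero_le _)
        (Finset.mem_univ j)
    simp only [Pi.add_apply, ti, Finsupp.equivFunOnFinite_symm_apply_apply]
    omega

include hbt in
theorem cmp_eq_comp {Γ : Submodule ℤ (Fin N → ℤ)} (hco : ∀ m, co m = 0 ↔ m ∈ Γ)
    (c : Fin b → ℤ) (g : Lau N) : cmp co c g = comp Γ (Γ.mkQ (Bv bt c)) g := by
  ext m
  have h1 : (co m = c) ↔ (Γ.mkQ m = Γ.mkQ (Bv bt c)) := by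
    rw [Submodule.mkQ_apply, Submodule.mkQ_apply, Submodule.Quotient.eq, ← hco, map_sub,
      co_Bv hbt, sub_eq_zero]
  rw [cmp_coeff, comp, AddMonoidAlgebra.coeff_ofCoeff, Finsupp.filter_apply]
  by_cases h : co m = c
  · rw [if_pos h, if_pos (h1.mp h)]
  · rw [if_neg h, if_neg (fun h' => h (h1.mpr h'))]

/-- splitting off a power of a variable -/
theorem split_var {K : Type} [Field K] (j : Fin b) (k : ℕ) (p : MvPolynomial (Fin b) K)
    (hp : p ≠ 0) (h : ∀ β ∈ p.support, β j = k) :
    ∃ q : MvPolynomial (Fin b) K, q ≠ 0 ∧ q.degreeOf j = 0 ∧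
      p = MvPolynomial.X j ^ k * q := by
  classical
  set q : MvPolynomial (Fin b) K :=
    ∑ β ∈ p.support, MvPolynomial.monomial (β.erase j) (MvPolynomial.coeff β p) with hq
  have h1 : p = MvPolynomial.X j ^ k * q := by
    rw [hq, Finset.mul_sum]
    conv_lhs => rw [p.as_sum]
    refine Finset.sum_congr rfl fun β hβ => ?_
    rw [MvPolynomial.X_pow_eq_monomial, MvPolynomial.monomial_mul, one_mul]
    congr 1
    rw [← h β hβ, Finsupp.single_add_erase]
  refine ⟨q, ?_, ?_, h1⟩
  · intro h0
    rw [h0, mul_zero] at h1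
    exact hp h1
  · apply Nat.le_zero.mp
    rw [MvPolynomial.degreeOf_le_iff]
    intro m hm
    rw [hq] at hm
    have h2 := MvPolynomial.support_sum hm
    rw [Finset.mem_biUnion] at h2
    obtain ⟨β, _, hβ⟩ := h2
    have h3 := MvPolynomial.support_monomial_subset hβ
    rw [Finset.mem_singleton] at h3
    rw [h3, Finsupp.erase_same]

/-- if all coefficients of a nonzero Laurent polynomial have `c j = 0`, it is a polynomial
of degree zero in the variable `j` up to a monomial -/
theorem exists_split {K : Type} [Field K] (j : Fin b) (k : ℕ)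
    (t : AddMonoidAlgebra K (Fin b → ℤ)) (p : MvPolynomial (Fin b) K)
    (hp : t * AddMonoidAlgebra.single (fun _ => (k : ℤ)) 1 = io K b p)
    (c0 : Fin b → ℤ) (hc0 : t.coeff c0 ≠ 0) (h : ∀ c, t.coeff c ≠ 0 → c j = 0) :
    ∃ q : MvPolynomial (Fin b) K, q ≠ 0 ∧ q.degreeOf j = 0 ∧
      p = MvPolynomial.X j ^ k * q := by
  apply split_var
  · rintro rfl
    have h1 := AddMonoidAlgebra.coeff_mul_single_apply t (1 : K) (fun _ => (k : ℤ))
      (c0 + fun _ => (k : ℤ))
    rw [hp, map_zero, add_neg_cancel_right, mul_one] at h1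
    exact hc0 h1.symm
  · intro β hβ
    have h1 := io_coeff p β
    rw [← hp, AddMonoidAlgebra.coeff_mul_single_apply, mul_one] at h1
    have h2 := h _ (by rw [h1]; exact MvPolynomial.mem_support_iff.mp hβ)
    simp only [Pi.add_apply, Pi.neg_apply, ti] at h2
    omega

end Hat

theorem t_hat : St_bez → St_sqf → St_hat := by
  intro hbez hsqf N Γ I f hsat hI hfI hrad hhom
  classical
  obtain ⟨b, bt, co, hco, hbt⟩ := basis_exists Γ hsat
  have hhomc : ∀ g ∈ I, ∀ c, cmp co c g ∈ I := fun g hg c => by
    rw [cmp_eq_comp hbt hco]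
    exact hhom g hg _
  have hunit : ∀ (m : Fin N → ℤ) (g : Lau N), g * AddMonoidAlgebra.single m 1 ∈ I → g ∈ I := by
    intro m g h
    have h1 := I.mul_mem_right (AddMonoidAlgebra.single (-m) 1) h
    rwa [mul_assoc, AddMonoidAlgebra.single_mul_single, add_neg_cancel, one_mul,
      ← AddMonoidAlgebra.one_def, mul_one] at h1
  refine ⟨b, bt, co, hco, hbt, ?_⟩
  -- classes
  set Q : Finset (Fin b → ℤ) := (f.coeff.support.image co).filter fun c => cmp co c f ∉ I
    with hQ
  have hsumf := sum_cmp (co := co) f (f.coeff.support.image co)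
    (fun m hm => Finset.mem_image_of_mem _ hm)
  have hQne : Q.Nonempty := by
    by_contra hne
    rw [Finset.not_nonempty_iff_eq_empty] at hne
    apply hfI
    rw [← hsumf]
    refine I.sum_mem fun c hc => ?_
    by_contra hcI
    have h1 : c ∈ Q := Finset.mem_filter.mpr ⟨hc, hcI⟩
    rw [hne] at h1
    exact absurd h1 (Finset.notMem_empty _)
  have hfQ : f - ∑ c ∈ Q, cmp co c f ∈ I := by
    have h1 := Finset.sum_filter_add_sum_filter_not (f.coeff.support.image co)
      (fun c => cmp co c f ∉ I) (fun c => cmp co c f)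
    rw [hsumf] at h1
    have h2 : f - ∑ c ∈ Q, cmp co c f = ∑ c ∈ (f.coeff.support.image co).filter
        (fun c => ¬ cmp co c f ∉ I), cmp co c f := by
      rw [sub_eq_iff_eq_add, add_comm]
      exact h1.symm
    rw [h2]
    refine I.sum_mem fun c hc => ?_
    exact not_not.mp (Finset.mem_filter.mp hc).2
  set lo : Fin b → ℤ := fun j => Q.inf' hQne (fun c => c j) with hlo
  have hlo1 : ∀ c ∈ Q, ∀ j, lo j ≤ c j := fun c hc j => Finset.inf'_le _ hc
  have hlo2 : ∀ j, ∃ c ∈ Q, c j = lo j := by
    intro j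
    obtain ⟨c, hc, h⟩ := Finset.exists_mem_eq_inf' hQne (fun c : Fin b → ℤ => c j)
    exact ⟨c, hc, h.symm⟩
  set bf : (Fin b → ℤ) → (Fin b →₀ ℕ) :=
    fun c => Finsupp.equivFunOnFinite.symm (fun j => (c j - lo j).toNat) with hbf
  have hbf1 : ∀ c ∈ Q, ti (bf c) + lo = c := by
    intro c hc
    ext j
    simp only [Pi.add_apply, ti, hbf, Finsupp.equivFunOnFinite_symm_apply_apply]
    have := hlo1 c hc j
    omega
  set S : Finset (Fin b →₀ ℕ) := Q.image bf with hSd
  have hS : ∀ β ∈ S, ti β + lo ∈ Q := by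
    intro β hβ
    obtain ⟨c, hc, rfl⟩ := Finset.mem_image.mp hβ
    rw [hbf1 c hc]
    exact hc
  have hbfinj : Set.InjOn bf Q := by
    intro c hc c' hc' h
    rw [← hbf1 c hc, ← hbf1 c' hc', h]
  set pp : (Fin b →₀ ℕ) → Lau N := fun β =>
    cmp co (ti β + lo) f * AddMonoidAlgebra.single (-(Bv bt (ti β + lo))) 1 with hpp
  have hppI : ∀ β ∈ S, pp β ∉ I := fun β hβ h => (Finset.mem_filter.mp (hS β hβ)).2 (hunit _ _ h)
  have hppΓ : ∀ β, ∀ m ∈ (pp β).coeff.support, co m = 0 := by
    intro β m hm
    rw [Finsupp.mem_support_iff, hpp] at hm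
    rw [AddMonoidAlgebra.coeff_mul_single_apply, cmp_coeff, mul_one] at hm
    by_contra h
    apply hm
    rw [if_neg]
    intro h'
    rw [map_add, map_neg, map_neg, neg_neg, co_Bv hbt] at h'
    exact h (by simpa using h')
  have hcong : AddMonoidAlgebra.single (Bv bt (-lo)) (1 : ℂ) * f
      - ∑ β ∈ S, pp β * AddMonoidAlgebra.single (Bv bt (ti β)) (1 : ℂ) ∈ I := by
    have h1 : ∀ β, pp β * AddMonoidAlgebra.single (Bv bt (ti β)) (1 : ℂ) =
        AddMonoidAlgebra.single (Bv bt (-lo)) (1 : ℂ) * cmp co (ti β + lo) f := by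
      intro β
      rw [hpp, mul_assoc, AddMonoidAlgebra.single_mul_single, mul_one, mul_comm]
      congr 2
      rw [Bv_add, Bv_neg]
      abel
    rw [Finset.sum_congr rfl (fun β _ => h1 β), hSd, Finset.sum_image hbfinj,
      Finset.sum_congr rfl (fun c hc => by rw [hbf1 c hc]), ← Finset.mul_sum, ← mul_sub]
    exact I.mul_mem_left _ hfQ
  -- the elements for the derivatives
  have hb : ∀ j : Fin b, ∃ A B R : Lau N, R ∉ I ∧ (∀ m ∈ R.coeff.support, co m j = 0) ∧
      A * f + B * (∑ m ∈ f.coeff.support,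
        AddMonoidAlgebra.single m (((co m j : ℤ) : ℂ) * f.coeff m)) - R ∈ I := by
    intro j
    refine hbez (Fin N → ℤ) I hI f hfI hrad ((Pi.evalAddMonoidHom (fun _ => ℤ) j).comp co) ?_ ?_
    · intro n
      refine ⟨n • bt j, ?_⟩
      change co (n • bt j) j = n
      rw [map_zsmul, hbt]
      simp
    · intro g hg n
      have h1 : (AddMonoidAlgebra.ofCoeff (g.coeff.filter fun m =>
          ((Pi.evalAddMonoidHom (fun _ => ℤ) j).comp co) m = n) : Lau N) =
          ∑ c ∈ (g.coeff.support.image co).filter (fun c => c j = n), cmp co c g := by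
        ext m
        rw [AddMonoidAlgebra.coeff_ofCoeff, Finsupp.filter_apply, AddMonoidAlgebra.coeff_sum,
          Finsupp.finsetSum_apply]
        simp only [cmp_coeff]
        rw [Finset.sum_ite_eq]
        change (if co m j = n then _ else _) = _
        by_cases hm : m ∈ g.coeff.support
        · by_cases h : co m j = n
          · rw [if_pos h, if_pos]
            exact Finset.mem_filter.mpr ⟨Finset.mem_image_of_mem _ hm, h⟩
          · rw [if_neg h, if_neg]
            exact fun h' => h (Finset.mem_filter.mp h').2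
        · have h0 : g.coeff m = 0 := by simpa using hm
          rw [h0]
          simp
      rw [h1]
      exact I.sum_mem fun c _ => hhomc g hg c
  choose A B Rr hR1 hR2 hR3 using hb
  have hcj : ∀ j, ∃ c, cmp co c (Rr j) ∉ I := by
    intro j
    by_contra h
    push Not at h
    apply hR1 j
    rw [← sum_cmp (co := co) (Rr j) ((Rr j).coeff.support.image co)
      (fun m hm => Finset.mem_image_of_mem _ hm)]
    exact I.sum_mem fun c _ => h c
  choose cj hcj using hcj
  refine ⟨S, pp, Bv bt (-lo), (∏ c ∈ Q, cmp co c f) * ∏ j, cmp co (cj j) (Rr j), ?_, hcong,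
    ?_, ?_, ?_⟩
  · intro β hβ
    exact ⟨hppI β hβ, fun m hm => (hco m).mp (hppΓ β m hm)⟩
  · intro h
    rw [hSd, Finset.card_image_of_injOn hbfinj]
    by_contra hlt
    have hcard : Q.card = 1 := by
      have := hQne.card_pos
      omega
    obtain ⟨c, hc⟩ := Finset.card_eq_one.mp hcard
    rw [hc, Finset.sum_singleton, cmp_eq_comp hbt hco] at hfQ
    exact h _ hfQ
  · intro h
    rcases hI.mem_or_mem h with h | h
    · rw [Ideal.IsPrime.prod_mem_iff] at h
      obtain ⟨c, hc, h⟩ := h
      exact (Finset.mem_filter.mp hc).2 h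
    · rw [Ideal.IsPrime.prod_mem_iff] at h
      obtain ⟨j, _, h⟩ := h
      exact hcj j h
  · intro R _ _ _ ev hev hG
    rw [map_mul, map_prod, map_prod] at hG
    have hG1 : ∀ c ∈ Q, ev (cmp co c f) ≠ 0 := by
      intro c hc h
      exact hG (by rw [Finset.prod_eq_zero hc h, zero_mul])
    have hG2 : ∀ j, ev (cmp co (cj j) (Rr j)) ≠ 0 := by
      intro j h
      exact hG (by rw [Finset.prod_eq_zero (Finset.mem_univ j) h, mul_zero])
    have hevu : ∀ m : Fin N → ℤ, ev (AddMonoidAlgebra.single m 1) ≠ 0 := by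
      intro m h
      have h1 : ev (AddMonoidAlgebra.single m 1 * AddMonoidAlgebra.single (-m) 1) = 1 := by
        rw [AddMonoidAlgebra.single_mul_single, add_neg_cancel, one_mul,
          ← AddMonoidAlgebra.one_def, map_one]
      rw [map_mul, h, zero_mul] at h1
      exact zero_ne_one h1
    have hpp0 : ∀ β ∈ S, ev (pp β) ≠ 0 := by
      intro β hβ
      rw [hpp, map_mul]
      exact mul_ne_zero (hG1 _ (hS β hβ)) (hevu _)
    have hinj : Function.Injective (algebraMap R (FractionRing R)) :=
      IsFractionRing.injective R _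
    have ha0 : ∀ r : R, r ≠ 0 → algebraMap R (FractionRing R) r ≠ 0 := by
      intro r hr h
      rw [← map_zero (algebraMap R (FractionRing R))] at h
      exact hr (hinj h)
    have hmap : MvPolynomial.map (algebraMap R (FractionRing R))
        (∑ β ∈ S, MvPolynomial.monomial β (ev (pp β))) =
        ∑ β ∈ S, MvPolynomial.monomial β (algebraMap R (FractionRing R) (ev (pp β))) := by
      rw [map_sum]
      refine Finset.sum_congr rfl fun β _ => ?_
      rw [MvPolynomial.map_monomial]
    rw [hmap]
    set P := ∑ β ∈ S, MvPolynomial.monomial β (algebraMap R (FractionRing R) (ev (pp β)))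
      with hP
    have hPc : ∀ β ∈ S, MvPolynomial.coeff β P = algebraMap R (FractionRing R) (ev (pp β)) := by
      intro β hβ
      rw [hP, MvPolynomial.coeff_sum]
      simp only [MvPolynomial.coeff_monomial]
      rw [Finset.sum_ite_eq', if_pos hβ]
    have hPX : ∀ i, ¬ (MvPolynomial.X i ∣ P) := by
      rintro i ⟨p, hp⟩
      obtain ⟨c, hc, hci⟩ := hlo2 i
      have h1 := hPc (bf c) (Finset.mem_image_of_mem _ hc)
      rw [hp, MvPolynomial.coeff_X_mul', if_neg] at h1
      · exact ha0 _ (hpp0 _ (Finset.mem_image_of_mem _ hc)) h1.symm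
      · rw [Finsupp.mem_support_iff, not_not]
        simp only [hbf, Finsupp.equivFunOnFinite_symm_apply_apply]
        omega
    refine ⟨hpp0, ?_, hPX⟩
    haveI : CharZero (FractionRing R) :=
      charZero_of_injective_algebraMap (algebraMap ℂ (FractionRing R)).injective
    have hP0 : P ≠ 0 := by
      obtain ⟨c, hc⟩ := hQne
      intro h
      have h1 := hPc (bf c) (Finset.mem_image_of_mem _ hc)
      rw [h, MvPolynomial.coeff_zero] at h1
      exact ha0 _ (hpp0 _ (Finset.mem_image_of_mem _ hc)) h1.symm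
    apply hsqf (FractionRing R) b P hP0 hPX
    intro j
    -- the ring homomorphism
    have hHI : ∀ g ∈ I, Hat co bt ev g = 0 := by
      intro g hg
      ext c
      rw [Hat_coeff, hev _ (I.mul_mem_right _ (hhomc g hg c)), map_zero]
      simp
    have hHf : Hat co bt ev f = AddMonoidAlgebra.single lo 1 * io (FractionRing R) b P := by
      have h1 := hHI _ hcong
      rw [map_sub, map_mul, Hat_Bv hbt, map_sum, sub_eq_zero] at h1
      have h2 : ∑ β ∈ S, Hat co bt ev (pp β * AddMonoidAlgebra.single (Bv bt (ti β)) (1 : ℂ)) =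
          io (FractionRing R) b P := by
        rw [hP, map_sum]
        refine Finset.sum_congr rfl fun β _ => ?_
        rw [map_mul, Hat_Bv hbt, Hat_zero_of_supp ev _ (hppΓ β), io_monomial,
          AddMonoidAlgebra.single_mul_single, zero_add, mul_one]
      rw [h2] at h1
      rw [← h1, ← mul_assoc, AddMonoidAlgebra.single_mul_single, add_neg_cancel, one_mul,
        ← AddMonoidAlgebra.one_def, one_mul]
    have hHD : Hat co bt ev (∑ m ∈ f.coeff.support,
        AddMonoidAlgebra.single m (((co m j : ℤ) : ℂ) * f.coeff m)) =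
        dl j (Hat co bt ev f) := by
      have h1 : f = ∑ m ∈ f.coeff.support, AddMonoidAlgebra.single m (f.coeff m) :=
        (AddMonoidAlgebra.sum_coeff_single f).symm
      conv_rhs => rw [h1]
      rw [map_sum, map_sum, dl_sum]
      refine Finset.sum_congr rfl fun m _ => ?_
      rw [Hat_single, Hat_single, dl_single]
      congr 1
      have h2 : (AddMonoidAlgebra.single (rs co bt m) (((co m j : ℤ) : ℂ) * f.coeff m) : Lau N) =
          ((co m j : ℤ)) • AddMonoidAlgebra.single (rs co bt m) (f.coeff m) := by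
        rw [AddMonoidAlgebra.smul_single, zsmul_eq_mul]
      rw [h2, map_zsmul, map_zsmul, zsmul_eq_mul]
    have hid := hHI _ (hR3 j)
    rw [map_sub, map_add, map_mul, map_mul, hHD, hHf, dl_mul_single, dl_io, sub_eq_zero] at hid
    obtain ⟨k1, hk1⟩ := io_clear (Hat co bt ev (A j) * AddMonoidAlgebra.single lo 1 +
      Hat co bt ev (B j) * AddMonoidAlgebra.single lo ((lo j : ℤ) : FractionRing R))
    obtain ⟨k2, hk2⟩ := io_clear (Hat co bt ev (B j) * AddMonoidAlgebra.single lo 1)
    obtain ⟨k3, hk3⟩ := io_clear (Hat co bt ev (Rr j))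
    obtain ⟨A', hA'⟩ := hk1 (max k1 (max k2 k3)) (le_max_left _ _)
    obtain ⟨B', hB'⟩ := hk2 (max k1 (max k2 k3)) (le_trans (le_max_left _ _) (le_max_right _ _))
    obtain ⟨R', hR'⟩ := hk3 (max k1 (max k2 k3)) (le_trans (le_max_right _ _) (le_max_right _ _))
    set k := max k1 (max k2 k3) with hk
    have hident : A' * P + B' * (MvPolynomial.X j * MvPolynomial.pderiv j P) = R' := by
      apply io_inj
      rw [map_add, map_mul, map_mul, ← hA', ← hB', ← hR', ← hid]
      ring
    obtain ⟨q, hq0, hqd, hq⟩ := exists_split j k _ R' hR' (cj j) (by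
        rw [Hat_coeff, map_mul]
        exact ha0 _ (mul_ne_zero (hG2 j) (hevu _))) (by
        intro c hc
        by_contra hcj0
        apply hc
        rw [Hat_coeff]
        have h1 : cmp co c (Rr j) = 0 := by
          ext m
          rw [cmp_coeff]
          split_ifs with h
          · by_contra hne
            have := hR2 j m (Finsupp.mem_support_iff.mpr hne)
            rw [h] at this
            exact hcj0 this
          · rfl
        rw [h1, zero_mul, map_zero, map_zero])
    exact ⟨A', B', q, k, hq0, hqd, by rw [hident, hq]⟩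

end Pool.Agent.Y833.OG
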